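import Pool.Agent.Helper89.SP.Defs
import Pool.Agent.Helper96.Slab.Perm
import Pool.Agent.Helper96.Slab.Deriv

/-!
SP-03: the critical identity at a maximiser.
-/

set_option autoImplicit false

open MeasureTheory Set Real Slab

namespace Pool.Agent.Helper89.SP

namespace Cr

theorem antitone_H : Antitone H := by
  intro a b hab
  unfold H
  by_cases hb : b < 0
  · rw [if_pos hb, if_pos (lt_of_le_of_lt hab hb)]
  · rw [if_neg hb]
    split <;> norm_num

theorem int_H (a b : ℝ) : IntervalIntegrable H volume a b :=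
  (antitone_H.antitoneOn _).intervalIntegrable

theorem continuous_AH {y : ℝ} (hy : 0 < y) : Continuous (A y H) := by
  have e : A y H = fun s => y⁻¹ * ((∫ v in (0 : ℝ)..(s + y), H v) - ∫ v in (0 : ℝ)..(s - y), H v) := by
    funext s
    rw [Deriv.A_eq hy.ne', intervalIntegral.integral_interval_sub_left (int_H _ _) (int_H _ _)]
  rw [e]
  have c : Continuous fun s : ℝ => ∫ v in (0 : ℝ)..s, H v :=
    intervalIntegral.continuous_primitive (fun a b => int_H a b) 0
  exact continuous_const.mul ((c.comp (by fun_prop)).sub (c.comp (by fun_prop)))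

theorem continuous_AL {l : List ℝ} (hl : ∃ y ∈ l, 0 < y) : Continuous (AL l H) := by
  obtain ⟨y, hy, hy0⟩ := hl
  have h1 : l.Perm (l.erase y ++ [y]) :=
    (List.perm_cons_erase hy).trans (List.perm_append_singleton y (l.erase y)).symm
  rw [AL_perm h1, AL_append, AL_cons, AL_nil]
  have : ∀ (l' : List ℝ) (φ : ℝ → ℝ), Continuous φ → Continuous (AL l' φ) := by
    intro l'
    induction l' with
    | nil => intro φ h; exact h
    | cons z l' ih => intro φ h; rw [AL_cons]; exact continuous_A (ih φ h) z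
  exact this _ _ (continuous_AH hy0)

theorem H_scale {c : ℝ} (hc : 0 < c) (s : ℝ) : H (s * c) = H s := by
  unfold H
  by_cases hs : s < 0
  · rw [if_pos hs, if_pos (mul_neg_of_neg_of_pos hs hc)]
  · rw [if_neg hs, if_neg (not_lt.2 (mul_nonneg (not_lt.1 hs) hc.le))]

theorem AL_scale {c : ℝ} (hc : 0 < c) (l : List ℝ) (t : ℝ) :
    AL (l.map (fun x => x / c)) H t = AL l H (t * c) := by
  induction l generalizing t with
  | nil => exact (H_scale hc t).symm
  | cons x l ih =>
    rw [List.map_cons, AL_cons, AL_cons]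
    unfold A
    apply intervalIntegral.integral_congr
    intro u _
    change AL (List.map (fun x => x / c) l) H (t - x / c * u) = AL l H (t * c - x * u)
    rw [ih]
    congr 1
    field_simp

theorem sq_cons (x : ℝ) (l : List ℝ) : sq (x :: l) = x ^ 2 + sq l := by
  unfold sq; simp

theorem sq_perm {l l' : List ℝ} (h : l.Perm l') : sq l = sq l' := by
  unfold sq
  exact (h.map _).sum_eq

theorem sq_div (l : List ℝ) (c : ℝ) : sq (l.map (fun x => x / c)) = sq l / c ^ 2 := by
  induction l with
  | nil => simp [sq]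
  | cons x l ih => rw [List.map_cons, sq_cons, sq_cons, ih, div_pow, add_div]

theorem sq_nonneg (l : List ℝ) : 0 ≤ sq l := by
  induction l with
  | nil => simp [sq]
  | cons x l ih => rw [sq_cons]; positivity

theorem sq_pos {l : List ℝ} (hl : ∃ y ∈ l, 0 < y) : 0 < sq l := by
  obtain ⟨y, hy, hy0⟩ := hl
  rw [sq_perm (List.perm_cons_erase hy), sq_cons]
  have := sq_nonneg (l.erase y)
  positivity

end Cr

theorem crit {n : ℕ} {t : ℝ} {L : List ℝ} (h : MaxL n t L) (ht : 0 < t) {x : ℝ} {l : List ℝ}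
    (hp : L.Perm (x :: l)) (hx : 0 < x) (hl : ∃ y ∈ l, 0 < y) : Crit t x l := by
  set G : ℝ → ℝ := AL l H with hG
  have hGc : Continuous G := Cr.continuous_AL hl
  have hsq : x ^ 2 + sq l = 1 := by
    rw [← Cr.sq_cons, ← Cr.sq_perm hp]; exact h.unit
  have hsqpos := Cr.sq_pos hl
  have hlen : l.length + 1 = n := by
    have := hp.length_eq
    rw [h.len] at this
    simpa using this.symm
  -- norm
  set N : ℝ → ℝ := fun e => √(1 + 2 * x * e + e ^ 2) with hN
  have hN2 : ∀ e, 0 < 1 + 2 * x * e + e ^ 2 := by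
    intro e
    nlinarith [_root_.sq_nonneg (x + e)]
  have hNpos : ∀ e, 0 < N e := fun e => Real.sqrt_pos.2 (hN2 e)
  have hN0 : N 0 = 1 := by simp [hN]
  -- the function
  set f : ℝ → ℝ := fun e => (x + e)⁻¹ *
    ∫ v in (t * N e - (x + e))..(t * N e + (x + e)), G v with hf
  have hTe : ∀ e, x + e ≠ 0 → T (((x + e) :: l).map (fun y => y / N e)) t
      = 2 * f e / 2 ^ n := by
    intro e he
    unfold T
    rw [Cr.AL_scale (hNpos e), AL_cons, Deriv.A_eq he, List.length_map, List.length_cons, hlen]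
  have hT0 : T L t = 2 * f 0 / 2 ^ n := by
    have h1 : T L t = T (x :: l) t := by
      unfold T
      rw [AL_perm hp, hp.length_eq]
    rw [h1]
    have h2 := hTe 0 (by simpa using hx.ne')
    rw [hN0] at h2
    simpa using h2
  -- local maximum
  have hmax : IsLocalMax f 0 := by
    have hmem : Ioo (-x) x ∈ nhds (0 : ℝ) := Ioo_mem_nhds (by linarith) hx
    filter_upwards [hmem] with e he
    have he0 : 0 < x + e := by linarith [he.1]
    have h1 := h.best (((x + e) :: l).map (fun y => y / N e)) (by simp [hlen]) (by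
      intro z hz
      obtain ⟨y, hy, rfl⟩ := List.mem_map.1 hz
      apply div_nonneg _ (hNpos e).le
      rcases List.mem_cons.1 hy with hy | hy
      · rw [hy]; exact he0.le
      · exact h.nonneg y (hp.mem_iff.2 (List.mem_cons_of_mem _ hy))) (by
      rw [Cr.sq_div, Cr.sq_cons]
      have : N e ^ 2 = 1 + 2 * x * e + e ^ 2 := Real.sq_sqrt (hN2 e).le
      rw [this, div_eq_one_iff_eq (hN2 e).ne']
      linarith)
    rw [hTe e he0.ne', hT0] at h1
    have h2 : (0 : ℝ) < 2 ^ n := by positivity
    have h3 := (div_le_div_iff_of_pos_right h2).1 h1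
    linarith
  -- derivative
  have hNd : HasDerivAt N x 0 := by
    have h1 : HasDerivAt (fun e : ℝ => 1 + 2 * x * e + e ^ 2) (2 * x) 0 := by
      have h2 : HasDerivAt (fun e : ℝ => 2 * x * e) (2 * x) 0 := by
        simpa using (hasDerivAt_id (0 : ℝ)).const_mul (2 * x)
      have h3 : HasDerivAt (fun e : ℝ => e ^ 2) 0 0 := by
        simpa using hasDerivAt_pow 2 (0 : ℝ)
      have h4 := (h2.const_add 1).add h3
      have h5 : HasDerivAt (fun e : ℝ => 1 + 2 * x * e + e ^ 2) (2 * x + 0) 0 := h4
      rwa [add_zero] at h5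
    have h2 := h1.sqrt (hN2 0).ne'
    simpa using h2
  have hint : ∀ a b, IntervalIntegrable G volume a b := fun a b => hGc.intervalIntegrable a b
  have hprim : ∀ s, HasDerivAt (fun s => ∫ v in (0 : ℝ)..s, G v) (G s) s := fun s =>
    intervalIntegral.integral_hasDerivAt_right (hint _ _)
      (hGc.stronglyMeasurableAtFilter _ _) hGc.continuousAt
  have hfd : HasDerivAt f (-(x ^ 2)⁻¹ * (∫ v in (t - x)..(t + x), G v) +
      x⁻¹ * (G (t + x) * (t * x + 1) - G (t - x) * (t * x - 1))) 0 := by
    have e1 : f = fun e => (x + e)⁻¹ * ((∫ v in (0 : ℝ)..(t * N e + (x + e)), G v) -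
        ∫ v in (0 : ℝ)..(t * N e - (x + e)), G v) := by
      funext e
      rw [hf]
      simp only
      rw [intervalIntegral.integral_interval_sub_left (hint _ _) (hint _ _)]
    have e2 : HasDerivAt (fun e : ℝ => x + e) 1 0 := by
      simpa using (hasDerivAt_id (0 : ℝ)).const_add x
    have e3 : HasDerivAt (fun e : ℝ => (x + e)⁻¹) (-(x ^ 2)⁻¹) 0 := by
      have h1 := e2.inv (by simpa using hx.ne')
      have h2 : HasDerivAt (fun e : ℝ => (x + e)⁻¹) (-1 / (x + 0) ^ 2) 0 := h1
      rwa [add_zero, neg_div, one_div] at h2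
    have e4 : HasDerivAt (fun e : ℝ => t * N e + (x + e)) (t * x + 1) 0 :=
      (hNd.const_mul t).add e2
    have e5 : HasDerivAt (fun e : ℝ => t * N e - (x + e)) (t * x - 1) 0 :=
      (hNd.const_mul t).sub e2
    have a4 : t * N 0 + (x + 0) = t + x := by rw [hN0]; ring
    have a5 : t * N 0 - (x + 0) = t - x := by rw [hN0]; ring
    have e6 : HasDerivAt (fun e : ℝ => ∫ v in (0 : ℝ)..(t * N e + (x + e)), G v)
        (G (t + x) * (t * x + 1)) 0 := by
      have h1 : HasDerivAt (fun s => ∫ v in (0 : ℝ)..s, G v) (G (t + x)) (t * N 0 + (x + 0)) := by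
        rw [a4]; exact hprim _
      exact h1.comp (0 : ℝ) e4
    have e7 : HasDerivAt (fun e : ℝ => ∫ v in (0 : ℝ)..(t * N e - (x + e)), G v)
        (G (t - x) * (t * x - 1)) 0 := by
      have h1 : HasDerivAt (fun s => ∫ v in (0 : ℝ)..s, G v) (G (t - x)) (t * N 0 - (x + 0)) := by
        rw [a5]; exact hprim _
      exact h1.comp (0 : ℝ) e5
    rw [e1]
    have e8 := e3.mul (e6.sub e7)
    refine e8.congr_deriv ?_
    simp only [hN0, mul_one, add_zero, Pi.sub_apply]
    rw [intervalIntegral.integral_interval_sub_left (hint _ _) (hint _ _)]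
  have hzero := hmax.hasDerivAt_eq_zero hfd
  have hI : (∫ v in (t - x)..(t + x), G v) =
      x * (G (t + x) * (t * x + 1) - G (t - x) * (t * x - 1)) := by
    have hx2 : x ≠ 0 := hx.ne'
    field_simp at hzero
    linarith
  unfold Crit T P
  rw [AL_cons, ← hG, Deriv.A_eq hx.ne', hI, List.length_cons, pow_succ]
  have h2 : (2 : ℝ) ^ l.length ≠ 0 := by positivity
  field_simp
  ring

end Pool.Agent.Helper89.SP
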